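import Mathlib
import Pool.Agent.H170.TT.Full

set_option autoImplicit false

namespace Pool.Agent.Results.MP_1643f9_gt.AllEvenSpheres

open Pool.Agent.Results.MP_1643f9_gt.FullEvenSphere (IsImmersion IsTwoType LiesFullyInHypersphere)
open Pool.Agent.H170.TT

/-- For every `k ≥ 4` there is a 2-type surface lying fully in a hypersphere of dimension `2k`
of Euclidean `(2k+1)`-space. -/
theorem result (k : ℕ) (hk : 4 ≤ k) :
    ∃ x : ℝ × ℝ → EuclideanSpace ℝ (Fin (2 * k + 1)),
      IsImmersion x ∧ IsTwoType x ∧ LiesFullyInHypersphere x := by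
  obtain ⟨P, Q, s, c, β, h⟩ := exists_par (k - 4)
  have key : ∃ x : ℝ × ℝ → EuclideanSpace ℝ (Fin (9 + ((k - 4) + (k - 4)))),
      IsImmersion x ∧ IsTwoType x ∧ LiesFullyInHypersphere x :=
    ⟨surf P Q s c β, immersion_surf h, twoType_surf h, liesFully_surf h⟩
  have e : 2 * k + 1 = 9 + ((k - 4) + (k - 4)) := by omega
  rw [e]
  exact key

end Pool.Agent.Results.MP_1643f9_gt.AllEvenSpheres
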